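import Pool.Agent.helper32.EB.Defs2

/-! # Project BT, module VB: the representative modulo the lattice -/

open MeasureTheory ProbabilityTheory Filter Topology
open scoped ENNReal NNReal

namespace Pool.Agent.helper32.EB

theorem disp_meas : Measurable disp := by
  have h : disp = fun w : ℂ => (((w.re - ⌊w.re + 1 / 2⌋ : ℝ) : ℂ)) +
      (((w.im - ⌊w.im + 1 / 2⌋ : ℝ) : ℂ)) * Complex.I := by
    funext w
    apply Complex.ext
    · simp [disp, round_eq]
    · simp [disp, round_eq]
  rw [h]
  have h1 : Measurable fun w : ℂ => (w.re - ⌊w.re + 1 / 2⌋ : ℝ) := by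
    refine Complex.measurable_re.sub ?_
    exact (measurable_from_top (f := fun n : ℤ => (n : ℝ))).comp
      (Int.measurable_floor.comp (Complex.measurable_re.add_const _))
  have h2 : Measurable fun w : ℂ => (w.im - ⌊w.im + 1 / 2⌋ : ℝ) := by
    refine Complex.measurable_im.sub ?_
    exact (measurable_from_top (f := fun n : ℤ => (n : ℝ))).comp
      (Int.measurable_floor.comp (Complex.measurable_im.add_const _))
  exact (Complex.measurable_ofReal.comp h1).add ((Complex.measurable_ofReal.comp h2).mul_const _)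

theorem disp_lattice (w : ℂ) (m n : ℤ) : disp (w + ⟨m, n⟩) = disp w := by
  apply Complex.ext
  · simp only [disp, Complex.add_re]
    rw [round_add_intCast]
    push_cast
    ring
  · simp only [disp, Complex.add_im]
    rw [round_add_intCast]
    push_cast
    ring

/-- monotonicity of the norm -/
theorem VB_norm_le (z w : ℂ) (h1 : |z.re| ≤ |w.re|) (h2 : |z.im| ≤ |w.im|) : ‖z‖ ≤ ‖w‖ := by
  rw [Complex.norm_eq_sqrt_sq_add_sq, Complex.norm_eq_sqrt_sq_add_sq]
  apply Real.sqrt_le_sqrt
  exact add_le_add (sq_le_sq.2 h1) (sq_le_sq.2 h2)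

theorem disp_norm_le (w : ℂ) : ‖disp w‖ ≤ ‖w‖ := by
  apply VB_norm_le
  · have := round_le w.re 0
    simpa [disp] using this
  · have := round_le w.im 0
    simpa [disp] using this

theorem disp_norm_le_one (w : ℂ) : ‖disp w‖ ≤ 3 / 4 := by
  rw [Complex.norm_eq_sqrt_sq_add_sq, Real.sqrt_le_left (by norm_num)]
  have h1 : (disp w).re ^ 2 ≤ (1 / 2) ^ 2 := by
    rw [sq_le_sq, abs_of_pos (by norm_num : (0 : ℝ) < 1 / 2)]
    exact abs_sub_round _
  have h2 : (disp w).im ^ 2 ≤ (1 / 2) ^ 2 := by
    rw [sq_le_sq, abs_of_pos (by norm_num : (0 : ℝ) < 1 / 2)]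
    exact abs_sub_round _
  linarith

theorem disp_disp_add (w y : ℂ) : disp (disp w + y) = disp (w + y) := by
  have h : disp w + y = (w + y) + ⟨((-round w.re : ℤ) : ℝ), ((-round w.im : ℤ) : ℝ)⟩ := by
    apply Complex.ext
    · simp only [disp, Complex.add_re]
      push_cast
      ring
    · simp only [disp, Complex.add_im]
      push_cast
      ring
  rw [h, disp_lattice]

theorem disp_norm_add (w y : ℂ) : ‖disp (w + y)‖ ≤ ‖disp w‖ + ‖y‖ := by
  rw [← disp_disp_add]
  exact (disp_norm_le _).trans (norm_add_le _ _)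

theorem VB_norm_neg_le (w : ℂ) : ‖disp (-w)‖ ≤ ‖disp w‖ := by
  apply VB_norm_le
  · have h := round_le (-w.re) (-round w.re)
    simp only [disp, Complex.neg_re]
    refine h.trans (le_of_eq ?_)
    rw [show (-w.re - ((-round w.re : ℤ) : ℝ)) = -(w.re - round w.re) by push_cast; ring, abs_neg]
  · have h := round_le (-w.im) (-round w.im)
    simp only [disp, Complex.neg_im]
    refine h.trans (le_of_eq ?_)
    rw [show (-w.im - ((-round w.im : ℤ) : ℝ)) = -(w.im - round w.im) by push_cast; ring, abs_neg]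

theorem disp_norm_neg (w : ℂ) : ‖disp (-w)‖ = ‖disp w‖ := by
  apply le_antisymm (VB_norm_neg_le w)
  have := VB_norm_neg_le (-w)
  rwa [neg_neg] at this

/-- `disp` is the identity near the origin -/
theorem VB_disp_small (v : ℂ) (h : ‖v‖ < 1 / 2) : disp v = v := by
  have h1 := (Complex.abs_re_le_norm v).trans_lt h
  have h2 := (Complex.abs_im_le_norm v).trans_lt h
  rw [abs_lt] at h1 h2
  have r1 : round v.re = 0 := by
    rw [round_eq_zero_iff, Set.mem_Ico]
    exact ⟨h1.1.le, h1.2⟩
  have r2 : round v.im = 0 := by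
    rw [round_eq_zero_iff, Set.mem_Ico]
    exact ⟨h2.1.le, h2.2⟩
  apply Complex.ext
  · simp [disp, r1]
  · simp [disp, r2]

theorem disp_add_small (w y : ℂ) (h : ‖disp w‖ + ‖y‖ < 1 / 2) : disp (w + y) = disp w + y := by
  rw [← disp_disp_add]
  exact VB_disp_small _ ((norm_add_le _ _).trans_lt h)

end Pool.Agent.helper32.EB
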