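import Pool.Agent.helper32.EB.Defs2
import Pool.Agent.helper97.BT.VB

/-! # Project BT, modules GB1, GB2: bounds for the heat kernel of the torus -/

open MeasureTheory ProbabilityTheory Filter Topology
open scoped ENNReal NNReal

namespace Pool.Agent.helper32.EB

/-- sum over the nonnegative translates of an antitone function -/
theorem GB_sum (G : ℝ → ℝ≥0∞) (hG : AntitoneOn G (Set.Ici 0)) (y : ℝ) (hy : 0 ≤ y) :
    (∫⁻ u in Set.Ici y, G u) ≤ ∑' n : ℕ, G (y + n) ∧
      ∑' n : ℕ, G (y + n) ≤ G y + ∫⁻ u in Set.Ici y, G u := by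
  have hU : Set.Ici y = ⋃ n : ℕ, Set.Ico (y + n) (y + n + 1) := by
    ext u
    simp only [Set.mem_Ici, Set.mem_iUnion, Set.mem_Ico]
    constructor
    · intro h
      refine ⟨⌊u - y⌋₊, ?_, ?_⟩
      · have := Nat.floor_le (show 0 ≤ u - y by linarith)
        linarith
      · have := Nat.lt_floor_add_one (u - y)
        linarith
    · rintro ⟨n, h1, h2⟩
      have : (0 : ℝ) ≤ n := Nat.cast_nonneg n
      linarith
  have hd : Pairwise (Function.onFun Disjoint fun n : ℕ => Set.Ico (y + n) (y + n + 1)) := by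
    intro i j hij
    have := Set.pairwise_disjoint_Ico_add_intCast y (show (i : ℤ) ≠ (j : ℤ) by exact_mod_cast hij)
    simpa using this
  have hI : ∫⁻ u in Set.Ici y, G u = ∑' n : ℕ, ∫⁻ u in Set.Ico (y + n) (y + n + 1), G u := by
    rw [hU]
    exact lintegral_iUnion (fun n => measurableSet_Ico) hd G
  have hvol : ∀ n : ℕ, volume (Set.Ico (y + n) (y + n + 1)) = 1 := by
    intro n
    rw [Real.volume_Ico]
    simp
  constructor
  · rw [hI]
    refine ENNReal.tsum_le_tsum fun n => ?_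
    have h1 : ∫⁻ u in Set.Ico (y + n) (y + n + 1), G u ≤
        ∫⁻ _ in Set.Ico (y + n) (y + n + 1), G (y + n) := by
      refine setLIntegral_mono measurable_const fun u hu => ?_
      have hn : (0 : ℝ) ≤ n := Nat.cast_nonneg n
      exact hG (Set.mem_Ici.2 (by linarith)) (Set.mem_Ici.2 (by linarith [hu.1])) hu.1
    rwa [setLIntegral_const, hvol, mul_one] at h1
  · rw [tsum_eq_zero_add' ENNReal.summable, hI]
    refine add_le_add (by simp) (ENNReal.tsum_le_tsum fun n => ?_)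
    have h1 : ∫⁻ _ in Set.Ico (y + n) (y + n + 1), G (y + (n + 1 : ℕ)) ≤
        ∫⁻ u in Set.Ico (y + n) (y + n + 1), G u := by
      refine setLIntegral_mono' measurableSet_Ico fun u hu => ?_
      have hn : (0 : ℝ) ≤ n := Nat.cast_nonneg n
      push_cast
      exact hG (Set.mem_Ici.2 (by linarith [hu.1])) (Set.mem_Ici.2 (by linarith))
        (by linarith [hu.2])
    rwa [setLIntegral_const, hvol, mul_one] at h1

/-- sum over all translates of an even unimodal function of integral `1` -/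
theorem GB_theta0 (G : ℝ → ℝ≥0∞) (hG : AntitoneOn G (Set.Ici 0))
    (heven : ∀ u, G (-u) = G u) (hint : ∫⁻ u, G u = 1) (x : ℝ) (hx0 : 0 ≤ x) (hx1 : x < 1) :
    ∑' k : ℤ, G (x + k) ≤ 1 + G 0 ∧ 1 ≤ ∑' k : ℤ, G (x + k) + G 0 := by
  have hsplit : ∑' k : ℤ, G (x + k) = ∑' n : ℕ, G (x + n) + ∑' n : ℕ, G (1 - x + n) := by
    rw [tsum_of_nat_of_neg_add_one ENNReal.summable ENNReal.summable]
    congr 1
    refine tsum_congr fun n => ?_
    rw [← heven]
    congr 1
    push_cast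
    ring
  have h1 := GB_sum G hG x hx0
  have h2 := GB_sum G hG (1 - x) (by linarith)
  have hmax : ∀ u, G u ≤ G 0 := by
    intro u
    rcases le_total 0 u with h | h
    · exact hG (Set.mem_Ici.2 le_rfl) (Set.mem_Ici.2 h) h
    · rw [← heven]
      exact hG (Set.mem_Ici.2 le_rfl) (Set.mem_Ici.2 (by linarith)) (by linarith)
  obtain ⟨I1, hI1⟩ : ∃ I, I = ∫⁻ u in Set.Ici x, G u := ⟨_, rfl⟩
  obtain ⟨I2, hI2⟩ : ∃ I, I = ∫⁻ u in Set.Ico (x - 1) x, G u := ⟨_, rfl⟩
  obtain ⟨I3, hI3⟩ : ∃ I, I = ∫⁻ u in Set.Ici (1 - x), G u := ⟨_, rfl⟩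
  rw [← hI1] at h1
  rw [← hI3] at h2
  -- the total integral
  have htot : (1 : ℝ≥0∞) = I1 + (I2 + I3) := by
    rw [hI1, hI2, hI3, ← hint, ← lintegral_add_compl G (measurableSet_Ici (a := x))]
    congr 1
    rw [Set.compl_Ici, ← Set.Iio_union_Ico_eq_Iio (show x - 1 ≤ x by linarith),
      lintegral_union measurableSet_Ico, add_comm]
    · congr 1
      have h3 : ∫⁻ u in Set.Iio (x - 1), G u = ∫⁻ u in Set.Ioi (1 - x), G u := by
        have hmp : MeasurePreserving (fun u : ℝ => -u) volume volume :=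
          Measure.measurePreserving_neg _
        have hemb : MeasurableEmbedding (fun u : ℝ => -u) :=
          (MeasurableEquiv.neg ℝ).measurableEmbedding
        have := hmp.setLIntegral_comp_preimage_emb hemb G (Set.Ioi (1 - x))
        rw [← this]
        have hset : (fun u : ℝ => -u) ⁻¹' (Set.Ioi (1 - x)) = Set.Iio (x - 1) := by
          ext u
          simp only [Set.mem_preimage, Set.mem_Ioi, Set.mem_Iio]
          constructor <;> intro h <;> linarith
        rw [hset]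
        refine setLIntegral_congr_fun measurableSet_Iio fun u _ => ?_
        exact (heven u).symm
      rw [h3]
      exact setLIntegral_congr Ioi_ae_eq_Ici
    · rw [Set.disjoint_left]
      intro u hu hu'
      rw [Set.mem_Iio] at hu
      rw [Set.mem_Ico] at hu'
      linarith
  have hvol : volume (Set.Ico (x - 1) x) = 1 := by
    rw [Real.volume_Ico]
    simp
  -- the middle interval
  have hm1 : I2 ≤ G 0 := by
    have h3 : ∫⁻ u in Set.Ico (x - 1) x, G u ≤ ∫⁻ _ in Set.Ico (x - 1) x, G 0 :=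
      setLIntegral_mono measurable_const fun u _ => hmax u
    rwa [setLIntegral_const, hvol, mul_one, ← hI2] at h3
  have hm2 : G x + G (1 - x) ≤ G 0 + I2 := by
    have h3 : min (G x) (G (1 - x)) ≤ I2 := by
      have h4 : ∫⁻ _ in Set.Ico (x - 1) x, min (G x) (G (1 - x)) ≤
          ∫⁻ u in Set.Ico (x - 1) x, G u := by
        refine setLIntegral_mono' measurableSet_Ico fun u hu => ?_
        rcases le_total 0 u with h | h
        · refine (min_le_left _ _).trans ?_
          exact hG (Set.mem_Ici.2 h) (Set.mem_Ici.2 hx0) hu.2.le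
        · refine (min_le_right _ _).trans ?_
          rw [← heven u]
          exact hG (Set.mem_Ici.2 (by linarith)) (Set.mem_Ici.2 (by linarith))
            (by linarith [hu.1])
      rwa [setLIntegral_const, hvol, mul_one, ← hI2] at h4
    calc G x + G (1 - x) = max (G x) (G (1 - x)) + min (G x) (G (1 - x)) :=
          (max_add_min _ _).symm
      _ ≤ G 0 + I2 := add_le_add (max_le (hmax _) (hmax _)) h3
  constructor
  · rw [hsplit]
    calc ∑' n : ℕ, G (x + n) + ∑' n : ℕ, G (1 - x + n)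
        ≤ (G x + I1) + (G (1 - x) + I3) := add_le_add h1.2 h2.2
      _ = (G x + G (1 - x)) + (I1 + I3) := by ring
      _ ≤ (G 0 + I2) + (I1 + I3) := by gcongr
      _ = (I1 + (I2 + I3)) + G 0 := by ring
      _ = 1 + G 0 := by rw [← htot]
  · rw [hsplit]
    calc (1 : ℝ≥0∞) = I1 + (I2 + I3) := htot
      _ ≤ ∑' n : ℕ, G (x + n) + (G 0 + ∑' n : ℕ, G (1 - x + n)) :=
          add_le_add h1.1 (add_le_add hm1 h2.1)
      _ = _ := by ring

theorem GB_theta (G : ℝ → ℝ≥0∞) (hG : AntitoneOn G (Set.Ici 0))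
    (heven : ∀ u, G (-u) = G u) (hint : ∫⁻ u, G u = 1) (x : ℝ) :
    ∑' k : ℤ, G (x + k) ≤ 1 + G 0 ∧ 1 ≤ ∑' k : ℤ, G (x + k) + G 0 := by
  have h : ∑' k : ℤ, G (x + k) = ∑' k : ℤ, G (Int.fract x + k) := by
    rw [← (Equiv.addLeft ⌊x⌋).tsum_eq (fun k : ℤ => G (Int.fract x + k))]
    refine tsum_congr fun k => ?_
    congr 1
    rw [Equiv.coe_addLeft]
    push_cast
    rw [← add_assoc, Int.fract_add_floor]
  rw [h]
  exact GB_theta0 G hG heven hint _ (Int.fract_nonneg x) (Int.fract_lt_one x)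

/-- the heat kernel is a product -/
theorem GB_hk (t : ℝ) (ht : 0 < t) (z : ℂ) :
    hk t z = gaussianPDF 0 (2 * t).toNNReal z.re * gaussianPDF 0 (2 * t).toNNReal z.im := by
  unfold hk gaussianPDF
  rw [← ENNReal.ofReal_mul (gaussianPDFReal_nonneg _ _ _)]
  congr 1
  unfold gaussianPDFReal
  rw [Real.coe_toNNReal _ (by linarith : (0 : ℝ) ≤ 2 * t)]
  have h1 : ‖z‖ ^ 2 = z.re ^ 2 + z.im ^ 2 := by
    rw [← Complex.normSq_eq_norm_sq, Complex.normSq_apply]; ring
  have h2 : (√(2 * Real.pi * (2 * t)))⁻¹ * (√(2 * Real.pi * (2 * t)))⁻¹ =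
      1 / (4 * Real.pi * t) := by
    rw [← mul_inv, Real.mul_self_sqrt (by positivity), one_div]
    congr 1
    ring
  rw [show (√(2 * Real.pi * (2 * t)))⁻¹ * Real.exp (-(z.re - 0) ^ 2 / (2 * (2 * t))) *
      ((√(2 * Real.pi * (2 * t)))⁻¹ * Real.exp (-(z.im - 0) ^ 2 / (2 * (2 * t)))) =
      ((√(2 * Real.pi * (2 * t)))⁻¹ * (√(2 * Real.pi * (2 * t)))⁻¹) *
      (Real.exp (-(z.re - 0) ^ 2 / (2 * (2 * t))) * Real.exp (-(z.im - 0) ^ 2 / (2 * (2 * t))))
      by ring, h2, ← Real.exp_add, h1]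
  congr 2
  ring

theorem GB_pk (t : ℝ) (ht : 0 < t) (z : ℂ) :
    pk t z = (∑' k : ℤ, gaussianPDF 0 (2 * t).toNNReal (z.re + k)) *
      (∑' k : ℤ, gaussianPDF 0 (2 * t).toNNReal (z.im + k)) := by
  unfold pk
  rw [ENNReal.tsum_prod']
  rw [← ENNReal.tsum_mul_right]
  refine tsum_congr fun a => ?_
  rw [← ENNReal.tsum_mul_left]
  refine tsum_congr fun b => ?_
  rw [GB_hk t ht]
  simp

theorem pk_bounds (t : ℝ) (ht : 0 < t) (z : ℂ) :
    pk t z ≤ ENNReal.ofReal ((1 + 1 / √(4 * Real.pi * t)) ^ 2) ∧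
      (1 / 10 ≤ t → ENNReal.ofReal ((1 - 1 / √(4 * Real.pi * t)) ^ 2) ≤ pk t z) := by
  have hv : (2 * t).toNNReal ≠ 0 := by
    rw [Ne, Real.toNNReal_eq_zero]
    linarith
  have hvc : ((2 * t).toNNReal : ℝ) = 2 * t := Real.coe_toNNReal _ (by linarith)
  have hanti : AntitoneOn (gaussianPDF 0 (2 * t).toNNReal) (Set.Ici 0) := by
    intro a ha b hb hab
    rw [Set.mem_Ici] at ha hb
    unfold gaussianPDF
    apply ENNReal.ofReal_le_ofReal
    unfold gaussianPDFReal
    rw [hvc]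
    apply mul_le_mul_of_nonneg_left _ (by positivity)
    rw [Real.exp_le_exp]
    apply div_le_div_of_nonneg_right _ (by linarith)
    nlinarith
  have heven : ∀ u, gaussianPDF 0 (2 * t).toNNReal (-u) = gaussianPDF 0 (2 * t).toNNReal u := by
    intro u
    unfold gaussianPDF gaussianPDFReal
    congr 3
    ring
  have hint := lintegral_gaussianPDF_eq_one 0 hv
  have h0 : gaussianPDF 0 (2 * t).toNNReal 0 = ENNReal.ofReal (1 / √(4 * Real.pi * t)) := by
    unfold gaussianPDF gaussianPDFReal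
    rw [hvc]
    congr 1
    rw [one_div, show 2 * Real.pi * (2 * t) = 4 * Real.pi * t by ring]
    simp
  have hx := GB_theta _ hanti heven hint z.re
  have hy := GB_theta _ hanti heven hint z.im
  have hs : 0 < √(4 * Real.pi * t) := Real.sqrt_pos.2 (by positivity)
  rw [GB_pk t ht]
  rw [h0] at hx hy
  constructor
  · rw [sq, ENNReal.ofReal_mul (by positivity), ENNReal.ofReal_add one_pos.le (by positivity),
      ENNReal.ofReal_one]
    exact mul_le_mul' hx.1 hy.1
  · intro ht10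
    have h1 : 1 / √(4 * Real.pi * t) ≤ 1 := by
      rw [div_le_one hs]
      apply Real.le_sqrt_of_sq_le
      nlinarith [Real.pi_gt_three]
    rw [sq, ENNReal.ofReal_mul (by linarith), ENNReal.ofReal_sub _ (by positivity),
      ENNReal.ofReal_one]
    exact mul_le_mul' (tsub_le_iff_right.2 hx.2) (tsub_le_iff_right.2 hy.2)

theorem pk_small (t : ℝ) (ht : 0 < t) (ht1 : t ≤ 1) (z : ℂ) (hz : t ≤ ‖disp z‖ ^ 2) :
    pk t z ≤ ENNReal.ofReal (1000 / ‖disp z‖ ^ 2 * Real.exp (-‖disp z‖ ^ 2 / (8 * t))) := by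
  set d := ‖disp z‖ with hd
  have hd0 : 0 ≤ d := norm_nonneg _
  have hd2 : 0 < d ^ 2 := ht.trans_le hz
  have hd1 : d ≤ 3 / 4 := disp_norm_le_one z
  set E : ℝ := Real.exp (-d ^ 2 / (8 * t)) * Real.exp (-d ^ 2 / (16 * t)) with hE
  have h1 : ∀ m : ℤ × ℤ, hk t (z + ⟨m.1, m.2⟩) ≤
      ENNReal.ofReal (4 * E) * hk (4 * t) (z + ⟨m.1, m.2⟩) := by
    intro m
    have hw : d ≤ ‖z + ⟨m.1, m.2⟩‖ := by
      rw [hd, ← disp_lattice z m.1 m.2]
      exact disp_norm_le _
    set w := ‖z + ⟨m.1, m.2⟩‖ with hwd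
    unfold hk
    rw [← hwd, ← ENNReal.ofReal_mul (by positivity)]
    apply ENNReal.ofReal_le_ofReal
    have h2 : Real.exp (-w ^ 2 / (4 * t)) ≤ E * Real.exp (-w ^ 2 / (4 * (4 * t))) := by
      rw [hE, ← Real.exp_add, ← Real.exp_add, Real.exp_le_exp]
      have h3 : d ^ 2 ≤ w ^ 2 := pow_le_pow_left₀ hd0 hw 2
      rw [div_add_div _ _ (by positivity) (by positivity), div_add_div _ _ (by positivity)
        (by positivity), div_le_div_iff₀ (by positivity) (by positivity)]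
      have ht2 : 0 < t ^ 3 := by positivity
      nlinarith [mul_le_mul_of_nonneg_left h3 ht2.le]
    calc 1 / (4 * Real.pi * t) * Real.exp (-w ^ 2 / (4 * t))
        ≤ 1 / (4 * Real.pi * t) * (E * Real.exp (-w ^ 2 / (4 * (4 * t)))) :=
          mul_le_mul_of_nonneg_left h2 (by positivity)
      _ = 4 * E * (1 / (4 * Real.pi * (4 * t)) * Real.exp (-w ^ 2 / (4 * (4 * t)))) := by
          field_simp
  have h2 : pk t z ≤ ENNReal.ofReal (4 * E) * pk (4 * t) z := by
    unfold pk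
    rw [← ENNReal.tsum_mul_left]
    exact ENNReal.tsum_le_tsum h1
  refine h2.trans ((mul_le_mul_right ((pk_bounds (4 * t) (by linarith) z).1) _).trans ?_)
  rw [← ENNReal.ofReal_mul (by positivity)]
  apply ENNReal.ofReal_le_ofReal
  have hs2 : (1 / √(4 * Real.pi * (4 * t))) ^ 2 ≤ 1 / (48 * t) := by
    rw [div_pow, one_pow, Real.sq_sqrt (by positivity)]
    apply one_div_le_one_div_of_le (by positivity)
    nlinarith [Real.pi_gt_three]
  have h3 : (1 + 1 / √(4 * Real.pi * (4 * t))) ^ 2 ≤ 2 + 1 / (24 * t) := by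
    have h4 : (1 + 1 / √(4 * Real.pi * (4 * t))) ^ 2 ≤
        2 + 2 * (1 / √(4 * Real.pi * (4 * t))) ^ 2 := by
      nlinarith [sq_nonneg (1 - 1 / √(4 * Real.pi * (4 * t)))]
    have h5 : 1 / (24 * t) = 2 * (1 / (48 * t)) := by
      field_simp
      norm_num
    linarith
  have h6 : Real.exp (-d ^ 2 / (16 * t)) ≤ 1 := by
    rw [Real.exp_le_one_iff]
    apply div_nonpos_of_nonpos_of_nonneg <;> nlinarith
  have h7 : Real.exp (-d ^ 2 / (16 * t)) * (1 / t) ≤ 16 / d ^ 2 := by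
    have h8 : d ^ 2 / (16 * t) ≤ Real.exp (d ^ 2 / (16 * t)) := by
      have := Real.add_one_le_exp (d ^ 2 / (16 * t))
      linarith
    have h9 : Real.exp (-d ^ 2 / (16 * t)) * Real.exp (d ^ 2 / (16 * t)) = 1 := by
      rw [← Real.exp_add, ← Real.exp_zero]
      congr 1
      ring
    have h10 : Real.exp (-d ^ 2 / (16 * t)) * (d ^ 2 / (16 * t)) ≤ 1 := by
      rw [← h9]
      exact mul_le_mul_of_nonneg_left h8 (Real.exp_pos _).le
    rw [le_div_iff₀ hd2]
    calc Real.exp (-d ^ 2 / (16 * t)) * (1 / t) * d ^ 2 =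
          16 * (Real.exp (-d ^ 2 / (16 * t)) * (d ^ 2 / (16 * t))) := by
          field_simp
      _ ≤ 16 * 1 := by linarith
      _ = 16 := by norm_num
  have h11 : 8 ≤ 5 / d ^ 2 := by
    rw [le_div_iff₀ hd2]
    nlinarith
  set X := Real.exp (-d ^ 2 / (16 * t)) with hX
  have hX0 : 0 < X := Real.exp_pos _
  have h12 : 4 * X * (2 + 1 / (24 * t)) ≤ 1000 / d ^ 2 := by
    have e : 4 * X * (2 + 1 / (24 * t)) = 8 * X + (X * (1 / t)) / 6 := by
      field_simp
      ring
    rw [e]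
    have e2 : 1000 / d ^ 2 = 200 * (5 / d ^ 2) := by ring
    have e3 : 16 / d ^ 2 = 16 / 5 * (5 / d ^ 2) := by ring
    rw [e3] at h7
    rw [e2]
    nlinarith
  calc 4 * E * (1 + 1 / √(4 * Real.pi * (4 * t))) ^ 2
      ≤ 4 * E * (2 + 1 / (24 * t)) := mul_le_mul_of_nonneg_left h3 (by positivity)
    _ = (4 * X * (2 + 1 / (24 * t))) * Real.exp (-d ^ 2 / (8 * t)) := by
        rw [hE]; ring
    _ ≤ 1000 / d ^ 2 * Real.exp (-d ^ 2 / (8 * t)) :=
        mul_le_mul_of_nonneg_right h12 (Real.exp_pos _).le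

end Pool.Agent.helper32.EB
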