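import Mathlib
import Pool.Agent.helper32.EB.Defs2
import Pool.Agent.helper97.BT.GB
import Pool.Agent.helper29.BT.GA
import Pool.Agent.helper29.BT.PA
import Pool.Agent.helper4.BT.GC

set_option autoImplicit false

/-! # bt:GD (project BT, MP_b57423_pr): existence of the Green function -/

open MeasureTheory ProbabilityTheory Filter Topology
open scoped ENNReal NNReal

namespace Pool.Agent.helper32.EB

theorem GD_hk_meas (m : ℂ) : Measurable (fun p : ℂ × ℝ => hk p.2 (p.1 + m)) := by
  unfold hk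
  fun_prop

theorem GD_pk_meas : Measurable (fun p : ℂ × ℝ => pk p.2 p.1) := by
  unfold pk
  exact Measurable.tsum (fun m => GD_hk_meas ⟨m.1, m.2⟩)

theorem GD_green_meas (T : ℝ) : Measurable (green T) := by
  unfold green
  exact GD_pk_meas.lintegral_prod_right'

theorem GD_pk_conv (δ : ℝ≥0) (t : ℝ) (ht : 0 < t) (z : ℂ) :
    ∫⁻ y, pk t (z + y) ∂(gauss2 δ) = pk (t + δ) z := by
  unfold pk
  rw [lintegral_tsum]
  · refine tsum_congr fun m => ?_
    rw [← hk_conv δ t ht]
    refine lintegral_congr fun y => ?_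
    congr 1
    ring
  · intro m
    have := (GA_hk_meas t).comp (measurable_id.const_add z |>.add_const (⟨m.1, m.2⟩ : ℂ))
    exact this.aemeasurable

theorem GD_green_conv (δ : ℝ≥0) (T : ℝ) (z : ℂ) :
    ∫⁻ y, green T (z + y) ∂(gauss2 δ) = ∫⁻ t in Set.Ioc (δ : ℝ) (T + δ), pk t z := by
  have hp : IsProbabilityMeasure (gauss2 δ) := gauss2_prob δ
  unfold green
  rw [lintegral_lintegral_swap]
  · have h1 : ∫⁻ t in Set.Ioc (0 : ℝ) T, ∫⁻ y, pk t (z + y) ∂(gauss2 δ) =
        ∫⁻ t in Set.Ioc (0 : ℝ) T, pk (t + δ) z :=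
      setLIntegral_congr_fun measurableSet_Ioc fun t ht => GD_pk_conv δ t ht.1 z
    rw [h1]
    have h2 : MeasurePreserving (fun t : ℝ => t + δ) volume volume :=
      measurePreserving_add_right volume (δ : ℝ)
    have h3 : Measurable (fun t : ℝ => pk t z) := GD_pk_meas.comp (measurable_const.prodMk measurable_id)
    have h4 := h2.setLIntegral_comp_preimage (s := Set.Ioc (δ : ℝ) (T + δ)) measurableSet_Ioc h3
    rw [← h4]
    congr 2
    ext t
    simp only [Set.mem_Ioc, Set.mem_preimage]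
    constructor
    · rintro ⟨a, b⟩
      exact ⟨by linarith, by linarith⟩
    · rintro ⟨a, b⟩
      exact ⟨by linarith, by linarith⟩
  · exact (GD_pk_meas.comp ((measurable_fst.const_add z).prodMk measurable_snd)).aemeasurable

theorem GD_split (z : ℂ) (a b : ℝ) (hab : a ≤ b) (c : ℝ) (hc : b ≤ c) :
    ∫⁻ t in Set.Ioc a c, pk t z = (∫⁻ t in Set.Ioc a b, pk t z) + ∫⁻ t in Set.Ioc b c, pk t z := by
  rw [← Set.Ioc_union_Ioc_eq_Ioc hab hc]
  exact lintegral_union measurableSet_Ioc (Set.Ioc_disjoint_Ioc_of_le (le_refl b))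

theorem greenFn_exists (κ : ℝ) (hκ : 0 < κ) (hκ1 : κ ≤ 1) :
    ∃ (C : ℝ) (g : ℂ → ℝ≥0∞), 0 < C ∧ GreenFn κ C g := by
  have hT1 : (1 : ℝ) ≤ 1 / κ ^ 2 := by
    rw [le_div_iff₀ (by positivity)]
    nlinarith
  set T : ℝ := 1 / κ ^ 2 with hT
  have hT0 : 0 < T := by linarith
  obtain ⟨C, hC, hCg⟩ := green_log T hT1
  have key : ∀ t : ℝ, T ≤ t → 1 / √(4 * Real.pi * t) ≤ κ / 3 ∧ 0 ≤ 1 / √(4 * Real.pi * t) := by
    intro t ht
    have h1 : 3 / κ ≤ √(4 * Real.pi * t) := by
      apply Real.le_sqrt_of_sq_le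
      have h2 : (3 / κ) ^ 2 = 9 * T := by
        rw [hT]
        field_simp
        norm_num
      rw [h2]
      nlinarith [Real.pi_gt_three]
    refine ⟨?_, by positivity⟩
    rw [div_le_iff₀ (by have : 0 < 3 / κ := by positivity
                        linarith)]
    calc (1 : ℝ) = κ / 3 * (3 / κ) := by field_simp
      _ ≤ κ / 3 * √(4 * Real.pi * t) := by
        apply mul_le_mul_of_nonneg_left h1
        positivity
  have up1 : ∀ t : ℝ, T ≤ t → ∀ z, pk t z ≤ ENNReal.ofReal (1 + κ) := by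
    intro t ht z
    refine (pk_bounds t (by linarith) z).1.trans (ENNReal.ofReal_le_ofReal ?_)
    obtain ⟨h1, h2⟩ := key t ht
    nlinarith
  have low1 : ∀ t : ℝ, T ≤ t → ∀ z, ENNReal.ofReal (1 - κ) ≤ pk t z := by
    intro t ht z
    refine le_trans (ENNReal.ofReal_le_ofReal ?_) ((pk_bounds t (by linarith) z).2 (by linarith))
    obtain ⟨h1, h2⟩ := key t ht
    nlinarith
  refine ⟨max C 1000, green T, by positivity, ?_⟩
  constructor
  · exact GD_green_meas T
  · intro z hz
    refine (hCg z hz).1.trans (ENNReal.ofReal_le_ofReal ?_)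
    linarith [le_max_left C 1000]
  · intro z hz
    refine le_trans (ENNReal.ofReal_le_ofReal ?_) (hCg z hz).2
    linarith [le_max_left C 1000]
  · intro δ hδ z
    have hδ0 : (0 : ℝ) ≤ δ := δ.2
    rw [GD_green_conv]
    calc ∫⁻ t in Set.Ioc (δ : ℝ) (T + δ), pk t z
        ≤ ∫⁻ t in Set.Ioc (0 : ℝ) (T + δ), pk t z :=
          lintegral_mono_set (Set.Ioc_subset_Ioc_left hδ0)
      _ = green T z + ∫⁻ t in Set.Ioc T (T + δ), pk t z :=
          GD_split z 0 T hT0.le (T + δ) (by linarith)
      _ ≤ green T z + ∫⁻ t in Set.Ioc T (T + δ), ENNReal.ofReal (1 + κ) := by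
          refine add_le_add (le_refl _) (setLIntegral_mono' measurableSet_Ioc fun t ht => ?_)
          exact up1 t ht.1.le z
      _ = green T z + ENNReal.ofReal (δ * (1 + κ)) := by
          rw [setLIntegral_const, Real.volume_Ioc, ← ENNReal.ofReal_mul (by linarith)]
          congr 2
          ring
  · intro δ hδ0 hδ1 z hz
    have hδ0' : (0 : ℝ) < δ := hδ0
    have hδ1' : (δ : ℝ) ≤ 1 := hδ1
    rw [GD_green_conv]
    have hd : 0 < ‖disp z‖ ^ 2 := lt_of_lt_of_le hδ0' hz
    calc green T z + ENNReal.ofReal (δ * (1 - κ))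
        = green T z + ∫⁻ t in Set.Ioc T (T + δ), ENNReal.ofReal (1 - κ) := by
          rw [setLIntegral_const, Real.volume_Ioc, ← ENNReal.ofReal_mul (by linarith)]
          congr 2
          ring
      _ ≤ green T z + ∫⁻ t in Set.Ioc T (T + δ), pk t z := by
          refine add_le_add (le_refl _) (setLIntegral_mono' measurableSet_Ioc fun t ht => ?_)
          exact low1 t ht.1.le z
      _ = ∫⁻ t in Set.Ioc (0 : ℝ) (T + δ), pk t z :=
          (GD_split z 0 T hT0.le (T + δ) (by linarith)).symm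
      _ = (∫⁻ t in Set.Ioc (0 : ℝ) δ, pk t z) + ∫⁻ t in Set.Ioc (δ : ℝ) (T + δ), pk t z :=
          GD_split z 0 δ hδ0'.le (T + δ) (by linarith)
      _ ≤ ENNReal.ofReal (max C 1000 * Real.exp (-‖disp z‖ ^ 2 / (8 * δ))) +
            ∫⁻ t in Set.Ioc (δ : ℝ) (T + δ), pk t z := by
          gcongr
          calc ∫⁻ t in Set.Ioc (0 : ℝ) δ, pk t z
              ≤ ∫⁻ t in Set.Ioc (0 : ℝ) δ, ENNReal.ofReal
                  (1000 / ‖disp z‖ ^ 2 * Real.exp (-‖disp z‖ ^ 2 / (8 * δ))) := by
                refine setLIntegral_mono' measurableSet_Ioc fun t ht => ?_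
                refine (pk_small t ht.1 (by linarith [ht.2]) z (by linarith [ht.2])).trans ?_
                apply ENNReal.ofReal_le_ofReal
                have h1 : -‖disp z‖ ^ 2 / (8 * t) ≤ -‖disp z‖ ^ 2 / (8 * (δ : ℝ)) := by
                  rw [neg_div, neg_div, neg_le_neg_iff]
                  apply div_le_div_of_nonneg_left hd.le (by linarith [ht.1]) (by linarith [ht.2])
                have h2 := Real.exp_le_exp.mpr h1
                apply mul_le_mul_of_nonneg_left h2
                positivity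
            _ = ENNReal.ofReal (1000 / ‖disp z‖ ^ 2 * Real.exp (-‖disp z‖ ^ 2 / (8 * δ)) * δ) := by
                rw [setLIntegral_const, Real.volume_Ioc, ← ENNReal.ofReal_mul (by positivity)]
                congr 1
                ring
            _ ≤ ENNReal.ofReal (max C 1000 * Real.exp (-‖disp z‖ ^ 2 / (8 * δ))) := by
                apply ENNReal.ofReal_le_ofReal
                have he : 0 < Real.exp (-‖disp z‖ ^ 2 / (8 * δ)) := Real.exp_pos _
                calc 1000 / ‖disp z‖ ^ 2 * Real.exp (-‖disp z‖ ^ 2 / (8 * δ)) * δ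
                    = (δ / ‖disp z‖ ^ 2) * (1000 * Real.exp (-‖disp z‖ ^ 2 / (8 * δ))) := by ring
                  _ ≤ 1 * (1000 * Real.exp (-‖disp z‖ ^ 2 / (8 * δ))) := by
                    apply mul_le_mul_of_nonneg_right _ (by positivity)
                    rw [div_le_one hd]
                    exact hz
                  _ = 1000 * Real.exp (-‖disp z‖ ^ 2 / (8 * δ)) := one_mul _
                  _ ≤ max C 1000 * Real.exp (-‖disp z‖ ^ 2 / (8 * δ)) :=
                    mul_le_mul_of_nonneg_right (le_max_right _ _) he.le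
      _ = (∫⁻ t in Set.Ioc (δ : ℝ) (T + δ), pk t z) +
            ENNReal.ofReal (max C 1000 * Real.exp (-‖disp z‖ ^ 2 / (8 * δ))) := add_comm _ _

end Pool.Agent.helper32.EB
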