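import Pool.Agent.helper32.EB.Defs2

/-! # Project BT, modules NA1, NA2: the geometry is admissible, limits of the logarithms -/

open MeasureTheory ProbabilityTheory Filter Topology
open scoped ENNReal NNReal

namespace Pool.Agent.helper32.EB

theorem NA_ev (c M : ℝ) (hc : 0 < c) : ∀ᶠ L : ℝ in atTop, M ≤ Real.exp (c * L) :=
  (Real.tendsto_exp_atTop.comp (tendsto_id.const_mul_atTop hc)).eventually_ge_atTop M

theorem geoL_ok (ζ : ℝ) (hζ : 0 < ζ) (hζ' : ζ ≤ 1 / 2000) (K : ℕ) (hK : 6 ≤ K) :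
    ∀ᶠ L : ℝ in atTop, (geoL ζ K L).OK := by
  have hK0 : (0 : ℝ) < K := by
    have : (6 : ℝ) ≤ K := by exact_mod_cast hK
    linarith
  have hσ : 0 < (1 - 100 * ζ) / K := by
    apply div_pos _ hK0
    linarith
  filter_upwards [NA_ev (1 / 4) 4 (by norm_num), NA_ev ((1 - 100 * ζ) / K) 8 hσ, NA_ev ζ 8 hζ,
    NA_ev (99 * ζ) 8 (by linarith), NA_ev (5 / 4) 8 (by norm_num), eventually_ge_atTop (0 : ℝ)]
    with L h1 h2 h3 h4 h5 hL
  refine ⟨?_, ?_, hK, ?_, ?_, ?_, ?_, ?_, ?_⟩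
  · exact Real.exp_pos _
  · show 8 * Real.exp (-(5 / 4) * L) ≤ 2 * Real.exp (-L)
    have e : Real.exp (-L) = Real.exp (-(5 / 4) * L) * Real.exp (1 / 4 * L) := by
      rw [← Real.exp_add]
      congr 1
      ring
    rw [e]
    nlinarith [Real.exp_pos (-(5 / 4) * L)]
  · show 2 * Real.exp (-100 * ζ * L - K * ((1 - 100 * ζ) * L / K)) = 2 * Real.exp (-L)
    congr 2
    field_simp
    ring
  · show 2 * Real.exp (-100 * ζ * L - (0 : ℕ) * ((1 - 100 * ζ) * L / K)) =
      2 * Real.exp (-100 * ζ * L)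
    congr 2
    push_cast
    ring
  · intro k hk
    show 8 * (2 * Real.exp (-100 * ζ * L - (k + 1 : ℕ) * ((1 - 100 * ζ) * L / K))) ≤
      2 * Real.exp (-100 * ζ * L - k * ((1 - 100 * ζ) * L / K))
    have e : Real.exp (-100 * ζ * L - k * ((1 - 100 * ζ) * L / K)) =
        Real.exp (-100 * ζ * L - (k + 1 : ℕ) * ((1 - 100 * ζ) * L / K)) *
          Real.exp ((1 - 100 * ζ) / K * L) := by
      rw [← Real.exp_add]
      congr 1
      push_cast
      ring
    rw [e]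
    nlinarith [Real.exp_pos (-100 * ζ * L - (k + 1 : ℕ) * ((1 - 100 * ζ) * L / K))]
  · show 8 * Real.exp (-100 * ζ * L) ≤ Real.exp (-99 * ζ * L)
    have e : Real.exp (-99 * ζ * L) = Real.exp (-100 * ζ * L) * Real.exp (ζ * L) := by
      rw [← Real.exp_add]
      congr 1
      ring
    rw [e]
    nlinarith [Real.exp_pos (-100 * ζ * L)]
  · show Real.exp (-99 * ζ * L) + Real.exp (-(5 / 4) * L) < 1 / 2
    have e1 : Real.exp (-99 * ζ * L) * Real.exp (99 * ζ * L) = 1 := by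
      rw [← Real.exp_add, ← Real.exp_zero]
      congr 1
      ring
    have e2 : Real.exp (-(5 / 4) * L) * Real.exp (5 / 4 * L) = 1 := by
      rw [← Real.exp_add, ← Real.exp_zero]
      congr 1
      ring
    have p1 := Real.exp_pos (-99 * ζ * L)
    have p2 := Real.exp_pos (-(5 / 4) * L)
    have q1 : Real.exp (-99 * ζ * L) ≤ 1 / 8 := by nlinarith
    have q2 : Real.exp (-(5 / 4) * L) ≤ 1 / 8 := by nlinarith
    linarith
  · intro j
    set q : ℕ := qL ζ L with hq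
    show ‖(⟨Real.exp (-L) * (((j : ℕ) / (2 * q + 1) : ℕ) - (q : ℝ)),
      Real.exp (-L) * (((j : ℕ) % (2 * q + 1) : ℕ) - (q : ℝ))⟩ : ℂ)‖ ≤
      3 / 8 * Real.exp (-100 * ζ * L)
    have hj : (j : ℕ) < (2 * q + 1) * (2 * q + 1) := j.2
    have ha : (j : ℕ) / (2 * q + 1) ≤ 2 * q := by
      have : (j : ℕ) / (2 * q + 1) < 2 * q + 1 := by
        rw [Nat.div_lt_iff_lt_mul (by omega)]
        exact hj
      omega
    have hb : (j : ℕ) % (2 * q + 1) ≤ 2 * q := by
      have := Nat.mod_lt (j : ℕ) (show 2 * q + 1 > 0 by omega)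
      omega
    have hqle : (q : ℝ) ≤ Real.exp ((1 - 100 * ζ) * L) / 4 := by
      rw [hq]
      exact Nat.floor_le (by positivity)
    have key : ∀ a : ℕ, a ≤ 2 * q → (Real.exp (-L) * ((a : ℝ) - q)) ^ 2 ≤
        (Real.exp (-100 * ζ * L) / 4) ^ 2 := by
      intro a ha
      have ha' : (a : ℝ) ≤ 2 * q := by exact_mod_cast ha
      have ha0 : (0 : ℝ) ≤ a := Nat.cast_nonneg a
      rw [sq_le_sq, abs_mul, abs_of_pos (Real.exp_pos (-L)),
        abs_of_pos (show (0 : ℝ) < Real.exp (-100 * ζ * L) / 4 by positivity)]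
      have h6 : |(a : ℝ) - q| ≤ q := by
        rw [abs_le]
        constructor <;> linarith
      calc Real.exp (-L) * |(a : ℝ) - q| ≤ Real.exp (-L) * (Real.exp ((1 - 100 * ζ) * L) / 4) :=
            mul_le_mul_of_nonneg_left (h6.trans hqle) (Real.exp_pos _).le
        _ = Real.exp (-100 * ζ * L) / 4 := by
            rw [← mul_div_assoc, ← Real.exp_add]
            congr 2
            ring
    rw [Complex.norm_eq_sqrt_sq_add_sq, Real.sqrt_le_left (by positivity)]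
    have k1 := key _ ha
    have k2 := key _ hb
    simp only
    nlinarith [sq_nonneg (Real.exp (-100 * ζ * L))]

theorem NA_lim (A B : ℝ → ℝ) (b c : ℝ) (hb : 0 < b) (hB : Tendsto B atTop (𝓝 b))
    (hA : ∀ᶠ L in atTop, A L = Real.exp (c * L) * B L) :
    Tendsto (fun L => Real.log (A L) / L) atTop (𝓝 c) := by
  have h1 : Tendsto (fun L => Real.log (B L)) atTop (𝓝 (Real.log b)) := hB.log hb.ne'
  have h2 : Tendsto (fun L => Real.log (B L) / L) atTop (𝓝 0) := h1.div_atTop tendsto_id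
  have h3 : Tendsto (fun L => c + Real.log (B L) / L) atTop (𝓝 (c + 0)) :=
    tendsto_const_nhds.add h2
  rw [add_zero] at h3
  refine h3.congr' ?_
  filter_upwards [hA, hB.eventually (lt_mem_nhds hb), eventually_gt_atTop (0 : ℝ)] with L h4 h5 h6
  rw [h4, Real.log_mul (Real.exp_pos _).ne' h5.ne', Real.log_exp, add_div, mul_div_cancel_right₀ _
    h6.ne']

/-- exponentials with negative rate tend to `0` -/
theorem NA_exp (c : ℝ) (hc : c < 0) : Tendsto (fun L : ℝ => Real.exp (c * L)) atTop (𝓝 0) :=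
  Real.tendsto_exp_atBot.comp (tendsto_id.const_mul_atTop_of_neg hc)

theorem lim_tt (ζ : ℝ) (hζ : 0 < ζ) (hζ' : ζ ≤ 1 / 2000) (K : ℕ) (hK : 6 ≤ K) (k : ℕ)
    (hk : k ≤ K) : Tendsto (fun L => tt (geoL ζ K L) k / L) atTop
      (𝓝 ((K - k : ℝ) * ((1 - 100 * ζ) / K))) := by
  have hK0 : (K : ℝ) ≠ 0 := by
    have : (6 : ℝ) ≤ K := by exact_mod_cast hK
    intro h
    linarith
  refine NA_lim _ (fun L => 2 / (2 - Real.exp (-(1 / 4) * L))) 1 _ one_pos ?_ ?_
  · have h1 : Tendsto (fun L : ℝ => 2 / (2 - Real.exp (-(1 / 4) * L))) atTop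
        (𝓝 (2 / (2 - 0))) :=
      tendsto_const_nhds.div (tendsto_const_nhds.sub (NA_exp _ (by norm_num))) (by norm_num)
    simpa using h1
  · filter_upwards [eventually_gt_atTop (0 : ℝ)] with L hL
    show 2 * Real.exp (-100 * ζ * L - k * ((1 - 100 * ζ) * L / K)) /
      (2 * Real.exp (-L) - Real.exp (-(5 / 4) * L)) = _
    have e1 : Real.exp (-(5 / 4) * L) = Real.exp (-L) * Real.exp (-(1 / 4) * L) := by
      rw [← Real.exp_add]; congr 1; ring
    have e2 : Real.exp (-100 * ζ * L - k * ((1 - 100 * ζ) * L / K)) =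
        Real.exp (((K : ℝ) - k) * ((1 - 100 * ζ) / K) * L) * Real.exp (-L) := by
      rw [← Real.exp_add]; congr 1; field_simp; ring
    have hpos : 0 < 2 - Real.exp (-(1 / 4) * L) := by
      have : Real.exp (-(1 / 4) * L) < 1 := by
        rw [Real.exp_lt_one_iff]; linarith
      linarith
    rw [e1, e2]
    have h0 := Real.exp_pos (-L)
    field_simp

/-- the ratio of the outer radii -/
theorem NA_RR (ζ L : ℝ) : Real.exp (-99 * ζ * L) - Real.exp (-100 * ζ * L) =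
    Real.exp (-99 * ζ * L) * (1 - Real.exp (-ζ * L)) := by
  have e : Real.exp (-100 * ζ * L) = Real.exp (-99 * ζ * L) * Real.exp (-ζ * L) := by
    rw [← Real.exp_add]; congr 1; ring
  rw [e]; ring

theorem NA_RR' (ζ L : ℝ) : Real.exp (-99 * ζ * L) + Real.exp (-100 * ζ * L) =
    Real.exp (-99 * ζ * L) * (1 + Real.exp (-ζ * L)) := by
  have e : Real.exp (-100 * ζ * L) = Real.exp (-99 * ζ * L) * Real.exp (-ζ * L) := by
    rw [← Real.exp_add]; congr 1; ring
  rw [e]; ring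

theorem lim_s1 (ζ : ℝ) (hζ : 0 < ζ) (hζ' : ζ ≤ 1 / 2000) (K : ℕ) (hK : 6 ≤ K) (k : ℕ)
    (hk : k ≤ K) : Tendsto (fun L => s1 (geoL ζ K L) k / L) atTop
      (𝓝 (ζ + k * ((1 - 100 * ζ) / K))) := by
  have hK0 : (0 : ℝ) < K := by
    have : (6 : ℝ) ≤ K := by exact_mod_cast hK
    linarith
  have hkK : (k : ℝ) ≤ K := by exact_mod_cast hk
  have hc : 100 * ζ + k * ((1 - 100 * ζ) / K) - 5 / 4 < 0 := by
    have h1 : (k : ℝ) * ((1 - 100 * ζ) / K) ≤ K * ((1 - 100 * ζ) / K) := by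
      apply mul_le_mul_of_nonneg_right hkK
      apply div_nonneg _ hK0.le
      linarith
    rw [mul_div_cancel₀ _ hK0.ne'] at h1
    linarith
  refine NA_lim _ (fun L => (1 - Real.exp (-ζ * L)) /
    (2 - Real.exp ((100 * ζ + k * ((1 - 100 * ζ) / K) - 5 / 4) * L))) (1 / 2) _ (by norm_num)
    ?_ ?_
  · have h1 : Tendsto (fun L : ℝ => (1 - Real.exp (-ζ * L)) /
        (2 - Real.exp ((100 * ζ + k * ((1 - 100 * ζ) / K) - 5 / 4) * L))) atTop
        (𝓝 ((1 - 0) / (2 - 0))) :=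
      (tendsto_const_nhds.sub (NA_exp _ (by linarith))).div
        (tendsto_const_nhds.sub (NA_exp _ hc)) (by norm_num)
    simpa using h1
  · filter_upwards [eventually_gt_atTop (0 : ℝ)] with L hL
    show (Real.exp (-99 * ζ * L) - Real.exp (-100 * ζ * L)) /
      (2 * Real.exp (-100 * ζ * L - k * ((1 - 100 * ζ) * L / K)) - Real.exp (-(5 / 4) * L)) = _
    rw [NA_RR]
    set X := Real.exp (-100 * ζ * L - k * ((1 - 100 * ζ) * L / K)) with hX
    have e1 : Real.exp (-(5 / 4) * L) =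
        X * Real.exp ((100 * ζ + k * ((1 - 100 * ζ) / K) - 5 / 4) * L) := by
      rw [hX, ← Real.exp_add]; congr 1; ring
    have e2 : Real.exp (-99 * ζ * L) =
        Real.exp ((ζ + k * ((1 - 100 * ζ) / K)) * L) * X := by
      rw [hX, ← Real.exp_add]; congr 1; ring
    have hpos : 0 < 2 - Real.exp ((100 * ζ + k * ((1 - 100 * ζ) / K) - 5 / 4) * L) := by
      have : Real.exp ((100 * ζ + k * ((1 - 100 * ζ) / K) - 5 / 4) * L) < 1 := by
        rw [Real.exp_lt_one_iff]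
        exact mul_neg_of_neg_of_pos hc hL
      linarith
    have h0 : 0 < X := Real.exp_pos _
    rw [e1, e2]
    rw [show 2 * X - X * Real.exp ((100 * ζ + k * ((1 - 100 * ζ) / K) - 5 / 4) * L) =
      X * (2 - Real.exp ((100 * ζ + k * ((1 - 100 * ζ) / K) - 5 / 4) * L)) by ring]
    rw [show Real.exp ((ζ + k * ((1 - 100 * ζ) / K)) * L) * X * (1 - Real.exp (-ζ * L)) =
      X * (Real.exp ((ζ + k * ((1 - 100 * ζ) / K)) * L) * (1 - Real.exp (-ζ * L))) by ring,
      mul_div_mul_left _ _ h0.ne', mul_div_assoc]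

theorem lim_s0 (ζ : ℝ) (hζ : 0 < ζ) (hζ' : ζ ≤ 1 / 2000) (K : ℕ) (hK : 6 ≤ K) (k : ℕ)
    (hk1 : 1 ≤ k) (hk : k ≤ K) : Tendsto (fun L => s0 (geoL ζ K L) k / L) atTop
      (𝓝 (ζ + (k - 1 : ℝ) * ((1 - 100 * ζ) / K))) := by
  have hK0 : (0 : ℝ) < K := by
    have : (6 : ℝ) ≤ K := by exact_mod_cast hK
    linarith
  have hkK : (k : ℝ) ≤ K := by exact_mod_cast hk
  have hc : 100 * ζ + (k - 1 : ℝ) * ((1 - 100 * ζ) / K) - 5 / 4 < 0 := by
    have h1 : (k - 1 : ℝ) * ((1 - 100 * ζ) / K) ≤ K * ((1 - 100 * ζ) / K) := by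
      apply mul_le_mul_of_nonneg_right (by linarith)
      apply div_nonneg _ hK0.le
      linarith
    rw [mul_div_cancel₀ _ hK0.ne'] at h1
    linarith
  refine NA_lim _ (fun L => (1 - Real.exp (-ζ * L)) /
    (2 + Real.exp ((100 * ζ + (k - 1 : ℝ) * ((1 - 100 * ζ) / K) - 5 / 4) * L))) (1 / 2) _
    (by norm_num) ?_ ?_
  · have h1 : Tendsto (fun L : ℝ => (1 - Real.exp (-ζ * L)) /
        (2 + Real.exp ((100 * ζ + (k - 1 : ℝ) * ((1 - 100 * ζ) / K) - 5 / 4) * L))) atTop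
        (𝓝 ((1 - 0) / (2 + 0))) :=
      (tendsto_const_nhds.sub (NA_exp _ (by linarith))).div
        (tendsto_const_nhds.add (NA_exp _ hc)) (by norm_num)
    simpa using h1
  · filter_upwards [eventually_gt_atTop (0 : ℝ)] with L hL
    show (Real.exp (-99 * ζ * L) - Real.exp (-100 * ζ * L)) /
      (2 * Real.exp (-100 * ζ * L - (k - 1 : ℕ) * ((1 - 100 * ζ) * L / K)) +
        Real.exp (-(5 / 4) * L)) = _
    rw [NA_RR, Nat.cast_sub hk1, Nat.cast_one]
    set X := Real.exp (-100 * ζ * L - (k - 1 : ℝ) * ((1 - 100 * ζ) * L / K)) with hX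
    have e1 : Real.exp (-(5 / 4) * L) =
        X * Real.exp ((100 * ζ + (k - 1 : ℝ) * ((1 - 100 * ζ) / K) - 5 / 4) * L) := by
      rw [hX, ← Real.exp_add]; congr 1; ring
    have e2 : Real.exp (-99 * ζ * L) =
        Real.exp ((ζ + (k - 1 : ℝ) * ((1 - 100 * ζ) / K)) * L) * X := by
      rw [hX, ← Real.exp_add]; congr 1; ring
    have h0 : 0 < X := Real.exp_pos _
    rw [e1, e2]
    rw [show 2 * X + X * Real.exp ((100 * ζ + (k - 1 : ℝ) * ((1 - 100 * ζ) / K) - 5 / 4) * L) =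
      X * (2 + Real.exp ((100 * ζ + (k - 1 : ℝ) * ((1 - 100 * ζ) / K) - 5 / 4) * L)) by ring]
    rw [show Real.exp ((ζ + (k - 1 : ℝ) * ((1 - 100 * ζ) / K)) * L) * X *
      (1 - Real.exp (-ζ * L)) = X * (Real.exp ((ζ + (k - 1 : ℝ) * ((1 - 100 * ζ) / K)) * L) *
      (1 - Real.exp (-ζ * L))) by ring,
      mul_div_mul_left _ _ h0.ne', mul_div_assoc]

theorem lim_sr (ζ : ℝ) (hζ : 0 < ζ) (hζ' : ζ ≤ 1 / 2000) (K : ℕ) (hK : 6 ≤ K) :
    Tendsto (fun L => sr (geoL ζ K L) / L) atTop (𝓝 ζ) := by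
  refine NA_lim _ (fun L => (1 - Real.exp (-ζ * L)) / 2) (1 / 2) _ (by norm_num) ?_ ?_
  · have h1 : Tendsto (fun L : ℝ => (1 - Real.exp (-ζ * L)) / 2) atTop (𝓝 ((1 - 0) / 2)) :=
      (tendsto_const_nhds.sub (NA_exp _ (by linarith))).div_const _
    simpa using h1
  · filter_upwards [eventually_gt_atTop (0 : ℝ)] with L hL
    show (Real.exp (-99 * ζ * L) - Real.exp (-100 * ζ * L)) / (2 * Real.exp (-100 * ζ * L)) = _
    rw [NA_RR]
    have e2 : Real.exp (-99 * ζ * L) = Real.exp (ζ * L) * Real.exp (-100 * ζ * L) := by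
      rw [← Real.exp_add]; congr 1; ring
    have h0 : 0 < Real.exp (-100 * ζ * L) := Real.exp_pos _
    rw [e2]
    field_simp

theorem lim_cm (ζ : ℝ) (hζ : 0 < ζ) (hζ' : ζ ≤ 1 / 2000) (K : ℕ) (hK : 6 ≤ K) :
    Tendsto (fun L => cmx (geoL ζ K L)) atTop (𝓝 (1 - ζ / (1 - 99 * ζ))) ∧
    Tendsto (fun L => cmn (geoL ζ K L)) atTop (𝓝 (1 - ζ / (1 - 99 * ζ))) := by
  have h99 : (1 - 99 * ζ) ≠ 0 := by linarith
  have hz : Tendsto (fun L : ℝ => Real.exp (-ζ * L)) atTop (𝓝 0) := NA_exp _ (by linarith)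
  have hq : Tendsto (fun L : ℝ => Real.exp (-(1 / 4) * L)) atTop (𝓝 0) := NA_exp _ (by norm_num)
  have a1 : Tendsto (fun L => Real.log (2 * (Real.exp (-99 * ζ * L) + Real.exp (-100 * ζ * L)) /
      Real.exp (-100 * ζ * L)) / L) atTop (𝓝 ζ) := by
    refine NA_lim _ (fun L => 2 * (1 + Real.exp (-ζ * L))) 2 _ (by norm_num) ?_ ?_
    · have := (tendsto_const_nhds (x := (1 : ℝ)).add hz).const_mul 2
      simpa using this
    · filter_upwards [eventually_gt_atTop (0 : ℝ)] with L hL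
      have e2 : Real.exp (-99 * ζ * L) = Real.exp (ζ * L) * Real.exp (-100 * ζ * L) := by
        rw [← Real.exp_add]; congr 1; ring
      rw [NA_RR', e2]
      have h0 : 0 < Real.exp (-100 * ζ * L) := Real.exp_pos _
      field_simp
  have a2 : Tendsto (fun L => Real.log ((Real.exp (-99 * ζ * L) + Real.exp (-100 * ζ * L)) /
      (2 * Real.exp (-L))) / L) atTop (𝓝 (1 - 99 * ζ)) := by
    refine NA_lim _ (fun L => (1 + Real.exp (-ζ * L)) / 2) (1 / 2) _ (by norm_num) ?_ ?_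
    · have := (tendsto_const_nhds (x := (1 : ℝ)).add hz).div_const 2
      simpa using this
    · filter_upwards [eventually_gt_atTop (0 : ℝ)] with L hL
      have e2 : Real.exp (-99 * ζ * L) = Real.exp ((1 - 99 * ζ) * L) * Real.exp (-L) := by
        rw [← Real.exp_add]; congr 1; ring
      rw [NA_RR', e2]
      have h0 : 0 < Real.exp (-L) := Real.exp_pos _
      field_simp
  have b1 : Tendsto (fun L => Real.log ((Real.exp (-99 * ζ * L) - Real.exp (-100 * ζ * L)) /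
      (2 * Real.exp (-100 * ζ * L))) / L) atTop (𝓝 ζ) := lim_sr ζ hζ hζ' K hK
  have b2 : Tendsto (fun L => Real.log ((Real.exp (-99 * ζ * L) - Real.exp (-100 * ζ * L)) /
      (2 * Real.exp (-L) - Real.exp (-(5 / 4) * L))) / L) atTop (𝓝 (1 - 99 * ζ)) := by
    refine NA_lim _ (fun L => (1 - Real.exp (-ζ * L)) / (2 - Real.exp (-(1 / 4) * L))) (1 / 2) _
      (by norm_num) ?_ ?_
    · have h1 : Tendsto (fun L : ℝ => (1 - Real.exp (-ζ * L)) / (2 - Real.exp (-(1 / 4) * L)))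
          atTop (𝓝 ((1 - 0) / (2 - 0))) :=
        (tendsto_const_nhds.sub hz).div (tendsto_const_nhds.sub hq) (by norm_num)
      simpa using h1
    · filter_upwards [eventually_gt_atTop (0 : ℝ)] with L hL
      have e1 : Real.exp (-(5 / 4) * L) = Real.exp (-L) * Real.exp (-(1 / 4) * L) := by
        rw [← Real.exp_add]; congr 1; ring
      have e2 : Real.exp (-99 * ζ * L) = Real.exp ((1 - 99 * ζ) * L) * Real.exp (-L) := by
        rw [← Real.exp_add]; congr 1; ring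
      have hpos : 0 < 2 - Real.exp (-(1 / 4) * L) := by
        have : Real.exp (-(1 / 4) * L) < 1 := by
          rw [Real.exp_lt_one_iff]; linarith
        linarith
      rw [NA_RR, e1, e2]
      have h0 : 0 < Real.exp (-L) := Real.exp_pos _
      field_simp
  constructor
  · have h := tendsto_const_nhds (x := (1 : ℝ)).sub (a1.div a2 h99)
    refine h.congr' ?_
    filter_upwards [eventually_gt_atTop (0 : ℝ)] with L hL
    show 1 - Real.log (2 * (Real.exp (-99 * ζ * L) + Real.exp (-100 * ζ * L)) /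
      Real.exp (-100 * ζ * L)) / L / (Real.log ((Real.exp (-99 * ζ * L) +
      Real.exp (-100 * ζ * L)) / (2 * Real.exp (-L))) / L) = _
    rw [div_div_div_cancel_right₀ hL.ne']
    rfl
  · have h := tendsto_const_nhds (x := (1 : ℝ)).sub (b1.div b2 h99)
    refine h.congr' ?_
    filter_upwards [eventually_gt_atTop (0 : ℝ)] with L hL
    show 1 - Real.log ((Real.exp (-99 * ζ * L) - Real.exp (-100 * ζ * L)) /
      (2 * Real.exp (-100 * ζ * L))) / L / (Real.log ((Real.exp (-99 * ζ * L) -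
      Real.exp (-100 * ζ * L)) / (2 * Real.exp (-L) - Real.exp (-(5 / 4) * L))) / L) = _
    rw [div_div_div_cancel_right₀ hL.ne']
    rfl

theorem lim_nL (ζ γA : ℝ) (hζ : 0 < ζ) (hγ : 0 < γA) :
    Tendsto (fun L => (nL ζ γA L : ℝ) / L) atTop (𝓝 (2 * γA / ζ)) := by
  have h := tendsto_nat_ceil_mul_div_atTop (R := ℝ) (a := 2 * γA / ζ) (by positivity)
  refine h.congr fun L => ?_
  unfold nL
  rw [div_mul_eq_mul_div]

end Pool.Agent.helper32.EB
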